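import Mathlib

set_option autoImplicit false

namespace Pool.Agent.Work.MP_b05911_co.Prism

set_option linter.unusedSimpArgs false

/-! The counterexample is the prism over the cycle of length 20: vertices `0, …, 39`, where
`2 * q` and `2 * q + 1` are the two vertices of column `q`. -/

/-- The partner of a vertex in its column. -/
def rung (a : Fin 40) : Fin 40 := if a.val % 2 = 0 then a + 1 else a - 1

/-- Adjacency of the prism. -/
def adjB (a b : Fin 40) : Bool := decide (b = rung a) || decide (b = a + 2) || decide (a = b + 2)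

/-- The prism. -/
def G : SimpleGraph (Fin 40) where
  Adj a b := adjB a b = true
  symm := ⟨by decide +kernel⟩
  loopless := ⟨by decide +kernel⟩

/-- The neighbours of a vertex. -/
def nbr (a : Fin 40) (j : Fin 3) : Fin 40 :=
  if j = 0 then rung a else if j = 1 then a + 2 else a - 2

theorem exists_nbr : ∀ a b : Fin 40, adjB a b = true → ∃ j : Fin 3, b = nbr a j := by
  decide +kernel

/-- Colour of the rung of column `q`. -/
def patR (q : ℕ) : ℕ := if q % 4 = 0 then 0 else if q % 4 = 1 then 3 else if q % 4 = 2 then 2 else 1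

/-- Colour of the edge between column `q` and the next column on the even side. -/
def patT (q : ℕ) : ℕ := if q % 4 = 0 then 1 else if q % 4 = 1 then 0 else if q % 4 = 2 then 3 else 2

/-- Colour of the edge between column `q` and the next column on the odd side. -/
def patB (q : ℕ) : ℕ := if q % 4 = 0 then 2 else if q % 4 = 1 then 1 else if q % 4 = 2 then 0 else 3

/-- Colour of the edge from `a` to `a + 2`. -/
def patS (a : Fin 40) : ℕ := if a.val % 2 = 0 then patT (a.val / 2) else patB (a.val / 2)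

/-- A star edge colouring with four colours. -/
def col4 (a b : Fin 40) : ℕ :=
  if b = rung a then patR (a.val / 2) else if b = a + 2 then patS a else patS b

/-- The colour that is missing on the edges of column `q`. -/
def miss (q : ℕ) : ℕ :=
  if q < 4 then 4 else if q < 8 then 0 else if q < 12 then 1 else if q < 16 then 2 else 3

/-- The colour that is missing on the edge `ab`. -/
def missE (a b : Fin 40) : ℕ :=
  if b = rung a then miss (a.val / 2) else if b = a + 2 then miss (a.val / 2) else miss (b.val / 2)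

/-- The lists. -/
def L (a b : Fin 40) : Finset ℕ := (Finset.range 5).erase (missE a b)

theorem col4_symm : ∀ a b : Fin 40, adjB a b = true → col4 a b = col4 b a := by decide +kernel

theorem col4_lt : ∀ a b : Fin 40, adjB a b = true → col4 a b < 4 := by decide +kernel

theorem col4_proper : ∀ (a : Fin 40) (i j : Fin 3), a ≠ nbr (nbr a i) j →
    col4 a (nbr a i) ≠ col4 (nbr a i) (nbr (nbr a i) j) := by decide +kernel

theorem col4_star : ∀ (a : Fin 40) (i j : Fin 3), a ≠ nbr (nbr a i) j →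
    ∀ k : Fin 3, nbr a i ≠ nbr (nbr (nbr a i) j) k → ∀ l : Fin 3,
    nbr (nbr a i) j ≠ nbr (nbr (nbr (nbr a i) j) k) l →
    ¬ (col4 a (nbr a i) = col4 (nbr (nbr a i) j) (nbr (nbr (nbr a i) j) k) ∧
      col4 (nbr a i) (nbr (nbr a i) j) =
        col4 (nbr (nbr (nbr a i) j) k) (nbr (nbr (nbr (nbr a i) j) k) l)) := by
  decide +kernel

theorem missE_symm : ∀ a b : Fin 40, adjB a b = true → missE a b = missE b a := by decide +kernel

theorem missE_lt : ∀ a b : Fin 40, missE a b < 5 := by decide +kernel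

theorem L_card (a b : Fin 40) : (L a b).card = 4 := by
  unfold L
  rw [Finset.card_erase_of_mem (Finset.mem_range.2 (missE_lt a b)), Finset.card_range]

/-- `col` is a star edge colouring from the lists `L`. -/
def IsStar (col : Fin 40 → Fin 40 → ℕ) (L : Fin 40 → Fin 40 → Finset ℕ) : Prop :=
  (∀ a b : Fin 40, G.Adj a b → col a b = col b a) ∧
  (∀ a b : Fin 40, G.Adj a b → col a b ∈ L a b) ∧
  (∀ a b c : Fin 40, G.Adj a b → G.Adj b c → a ≠ c → col a b ≠ col b c) ∧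
  (∀ a b c d e : Fin 40, G.Adj a b → G.Adj b c → G.Adj c d → G.Adj d e →
    a ≠ c → b ≠ d → c ≠ e →
    ¬ (col a b = col c d ∧ col b c = col d e))

/-- The even vertex of column `q`. -/
def T (q : ℕ) : Fin 40 := Fin.ofNat 40 (2 * q)

/-- The odd vertex of column `q`. -/
def B (q : ℕ) : Fin 40 := Fin.ofNat 40 (2 * q + 1)

theorem T_val (q : ℕ) : (T q).val = 2 * q % 40 := rfl

theorem B_val (q : ℕ) : (B q).val = (2 * q + 1) % 40 := rfl

theorem T_even (q : ℕ) : (T q).val % 2 = 0 := by rw [T_val]; omega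

theorem B_eq (q : ℕ) : B q = T q + 1 := by
  apply Fin.ext
  rw [B_val, Fin.val_add, T_val]
  simp

theorem T_succ (q : ℕ) : T (q + 1) = T q + 2 := by
  apply Fin.ext
  rw [T_val, Fin.val_add, T_val]
  have : ((2 : Fin 40) : ℕ) = 2 := rfl
  rw [this]
  omega

theorem B_succ (q : ℕ) : B (q + 1) = B q + 2 := by
  apply Fin.ext
  rw [B_val, Fin.val_add, B_val]
  have : ((2 : Fin 40) : ℕ) = 2 := rfl
  rw [this]
  omega

theorem adj_rung : ∀ x : Fin 40, x.val % 2 = 0 → adjB x (x + 1) = true := by decide +kernel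

theorem adj_two : ∀ x : Fin 40, adjB x (x + 2) = true := by decide +kernel

theorem aTB (q : ℕ) : G.Adj (T q) (B q) := by
  rw [B_eq]
  exact adj_rung _ (T_even q)

theorem aBT (q : ℕ) : G.Adj (B q) (T q) := (aTB q).symm

theorem aTT (q : ℕ) : G.Adj (T q) (T (q + 1)) := by
  rw [T_succ]
  exact adj_two _

theorem aTT' (q : ℕ) : G.Adj (T (q + 1)) (T q) := (aTT q).symm

theorem aBB (q : ℕ) : G.Adj (B q) (B (q + 1)) := by
  rw [B_succ]
  exact adj_two _

theorem aBB' (q : ℕ) : G.Adj (B (q + 1)) (B q) := (aBB q).symm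

theorem nTB (q q' : ℕ) : T q ≠ B q' := by
  intro h
  have := congrArg Fin.val h
  rw [T_val, B_val] at this
  omega

theorem nBT (q q' : ℕ) : B q ≠ T q' := (nTB q' q).symm

theorem nTT (q : ℕ) : T q ≠ T (q + 2) := by
  intro h
  have := congrArg Fin.val h
  rw [T_val, T_val] at this
  omega

theorem nBB (q : ℕ) : B q ≠ B (q + 2) := by
  intro h
  have := congrArg Fin.val h
  rw [B_val, B_val] at this
  omega

/-- Colour of the rung in column `q`. -/
def r (col : Fin 40 → Fin 40 → ℕ) (q : ℕ) : ℕ := col (T q) (B q)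

/-- Colour of the even edge leaving column `q`. -/
def t (col : Fin 40 → Fin 40 → ℕ) (q : ℕ) : ℕ := col (T q) (T (q + 1))

/-- Colour of the odd edge leaving column `q`. -/
def b (col : Fin 40 → Fin 40 → ℕ) (q : ℕ) : ℕ := col (B q) (B (q + 1))

/-- All edge colours in one sequence. -/
def f (col : Fin 40 → Fin 40 → ℕ) (i : ℕ) : ℕ :=
  if i % 3 = 0 then r col (i / 3) else if i % 3 = 1 then t col (i / 3) else b col (i / 3)

theorem f0 (col : Fin 40 → Fin 40 → ℕ) (q : ℕ) : f col (3 * q) = r col q := by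
  have h1 : (3 * q) % 3 = 0 := by omega
  have h2 : (3 * q) / 3 = q := by omega
  unfold f
  rw [if_pos h1, h2]

theorem f1 (col : Fin 40 → Fin 40 → ℕ) (q : ℕ) : f col (3 * q + 1) = t col q := by
  have h1 : ¬ (3 * q + 1) % 3 = 0 := by omega
  have h2 : (3 * q + 1) / 3 = q := by omega
  have h3 : (3 * q + 1) % 3 = 1 := by omega
  unfold f
  rw [if_neg h1, if_pos h3, h2]

theorem f2 (col : Fin 40 → Fin 40 → ℕ) (q : ℕ) : f col (3 * q + 2) = b col q := by
  have h1 : ¬ (3 * q + 2) % 3 = 0 := by omega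
  have h2 : (3 * q + 2) / 3 = q := by omega
  have h3 : ¬ (3 * q + 2) % 3 = 1 := by omega
  unfold f
  rw [if_neg h1, if_neg h3, h2]

/-- Star constraints for edges of type 0. -/
def con0 : List (ℕ × ℕ × ℕ) :=
  [(4, 1, 7), (3, 0, 6), (4, 1, 5), (3, 0, 5), (2, 0, 4), (4, 0, 1), (2, 1, 3), (3, 0, 1), (2, 0, 1)]

/-- Star constraints for edges of type 1. -/
def con1 : List (ℕ × ℕ × ℕ) :=
  [(5, 2, 8), (5, 2, 6), (3, 2, 4), (1, 0, 4), (1, 0, 3), (3, 1, 2)]

/-- Star constraints for edges of type 2. -/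
def con2 : List (ℕ × ℕ × ℕ) :=
  [(5, 2, 8), (5, 2, 7), (4, 2, 6), (3, 1, 6), (3, 1, 4), (4, 2, 3)]

/-- Star constraints by type. -/
def con (i : ℕ) : List (ℕ × ℕ × ℕ) := if i % 3 = 0 then con0 else if i % 3 = 1 then con1 else con2

/-- Adjacency constraints by type. -/
def adjo (i : ℕ) : List ℕ := if i % 3 = 0 then [0, 1] else if i % 3 = 1 then [0, 2] else [1, 2]

theorem k1 {col : Fin 40 → Fin 40 → ℕ} {L : Fin 40 → Fin 40 → Finset ℕ}
    (hs : IsStar col L) (Q : ℕ) :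
    ¬ (r col (Q + 3) = t col (Q + 1) ∧ t col (Q + 2) = t col Q) :=
  fun h => hs.2.2.2 _ _ _ _ _ (aTT Q) (aTT (Q + 1))
    (aTT (Q + 2)) (aTB (Q + 3)) (nTT Q) (nTT (Q + 1)) (nTB _ _)
    ⟨Eq.trans rfl (Eq.trans (h.2.symm) (Eq.symm rfl)),
     Eq.trans rfl (Eq.trans (h.1.symm) (Eq.symm rfl))⟩

theorem k2 {col : Fin 40 → Fin 40 → ℕ} {L : Fin 40 → Fin 40 → Finset ℕ}
    (hs : IsStar col L) (Q : ℕ) :
    ¬ (r col (Q + 3) = b col (Q + 1) ∧ b col (Q + 2) = b col Q) :=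
  fun h => hs.2.2.2 _ _ _ _ _ (aBB Q) (aBB (Q + 1))
    (aBB (Q + 2)) (aBT (Q + 3)) (nBB Q) (nBB (Q + 1)) (nBT _ _)
    ⟨Eq.trans rfl (Eq.trans (h.2.symm) (Eq.symm rfl)),
     Eq.trans rfl (Eq.trans (h.1.symm) (Eq.symm (hs.1 _ _ (aBT (Q + 3)))))⟩

theorem k3 {col : Fin 40 → Fin 40 → ℕ} {L : Fin 40 → Fin 40 → Finset ℕ}
    (hs : IsStar col L) (Q : ℕ) :
    ¬ (r col (Q + 2) = t col Q ∧ t col (Q + 1) = r col Q) :=
  fun h => hs.2.2.2 _ _ _ _ _ (aBT Q) (aTT Q)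
    (aTT (Q + 1)) (aTB (Q + 2)) (nBT _ _) (nTT Q) (nTB _ _)
    ⟨Eq.trans (hs.1 _ _ (aBT Q)) (Eq.trans (h.2.symm) (Eq.symm rfl)),
     Eq.trans rfl (Eq.trans (h.1.symm) (Eq.symm rfl))⟩

theorem k4 {col : Fin 40 → Fin 40 → ℕ} {L : Fin 40 → Fin 40 → Finset ℕ}
    (hs : IsStar col L) (Q : ℕ) :
    ¬ (r col (Q + 2) = b col Q ∧ b col (Q + 1) = r col Q) :=
  fun h => hs.2.2.2 _ _ _ _ _ (aTB Q) (aBB Q)
    (aBB (Q + 1)) (aBT (Q + 2)) (nTB _ _) (nBB Q) (nBT _ _)
    ⟨Eq.trans rfl (Eq.trans (h.2.symm) (Eq.symm rfl)),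
     Eq.trans rfl (Eq.trans (h.1.symm) (Eq.symm (hs.1 _ _ (aBT (Q + 2)))))⟩

theorem k5 {col : Fin 40 → Fin 40 → ℕ} {L : Fin 40 → Fin 40 → Finset ℕ}
    (hs : IsStar col L) (Q : ℕ) :
    ¬ (r col (Q + 2) = r col (Q + 1) ∧ b col (Q + 1) = t col Q) :=
  fun h => hs.2.2.2 _ _ _ _ _ (aTT Q) (aTB (Q + 1))
    (aBB (Q + 1)) (aBT (Q + 2)) (nTB _ _) (nTB _ _) (nBT _ _)
    ⟨Eq.trans rfl (Eq.trans (h.2.symm) (Eq.symm rfl)),
     Eq.trans rfl (Eq.trans (h.1.symm) (Eq.symm (hs.1 _ _ (aBT (Q + 2)))))⟩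

theorem k6 {col : Fin 40 → Fin 40 → ℕ} {L : Fin 40 → Fin 40 → Finset ℕ}
    (hs : IsStar col L) (Q : ℕ) :
    ¬ (r col (Q + 2) = t col Q ∧ b col (Q + 1) = t col (Q + 1)) :=
  fun h => hs.2.2.2 _ _ _ _ _ (aTT Q) (aTT (Q + 1))
    (aTB (Q + 2)) (aBB' (Q + 1)) (nTT Q) (nTB _ _) (nTB _ _)
    ⟨Eq.trans rfl (Eq.trans (h.1.symm) (Eq.symm rfl)),
     Eq.trans rfl (Eq.trans (h.2.symm) (Eq.symm (hs.1 _ _ (aBB' (Q + 1)))))⟩

theorem k7 {col : Fin 40 → Fin 40 → ℕ} {L : Fin 40 → Fin 40 → Finset ℕ}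
    (hs : IsStar col L) (Q : ℕ) :
    ¬ (r col (Q + 2) = r col (Q + 1) ∧ t col (Q + 1) = b col Q) :=
  fun h => hs.2.2.2 _ _ _ _ _ (aBB Q) (aBT (Q + 1))
    (aTT (Q + 1)) (aTB (Q + 2)) (nBT _ _) (nBT _ _) (nTB _ _)
    ⟨Eq.trans rfl (Eq.trans (h.2.symm) (Eq.symm rfl)),
     Eq.trans (hs.1 _ _ (aBT (Q + 1))) (Eq.trans (h.1.symm) (Eq.symm rfl))⟩

theorem k8 {col : Fin 40 → Fin 40 → ℕ} {L : Fin 40 → Fin 40 → Finset ℕ}
    (hs : IsStar col L) (Q : ℕ) :
    ¬ (r col (Q + 2) = b col Q ∧ b col (Q + 1) = t col (Q + 1)) :=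
  fun h => hs.2.2.2 _ _ _ _ _ (aBB Q) (aBB (Q + 1))
    (aBT (Q + 2)) (aTT' (Q + 1)) (nBB Q) (nBT _ _) (nBT _ _)
    ⟨Eq.trans rfl (Eq.trans (h.1.symm) (Eq.symm (hs.1 _ _ (aBT (Q + 2))))),
     Eq.trans rfl (Eq.trans (h.2) (Eq.symm (hs.1 _ _ (aTT' (Q + 1)))))⟩

theorem k9 {col : Fin 40 → Fin 40 → ℕ} {L : Fin 40 → Fin 40 → Finset ℕ}
    (hs : IsStar col L) (Q : ℕ) :
    ¬ (r col (Q + 1) = r col Q ∧ b col Q = t col Q) :=
  fun h => hs.2.2.2 _ _ _ _ _ (aTB Q) (aBB Q)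
    (aBT (Q + 1)) (aTT' Q) (nTB _ _) (nBT _ _) (nBT _ _)
    ⟨Eq.trans rfl (Eq.trans (h.1.symm) (Eq.symm (hs.1 _ _ (aBT (Q + 1))))),
     Eq.trans rfl (Eq.trans (h.2) (Eq.symm (hs.1 _ _ (aTT' Q))))⟩

theorem k10 {col : Fin 40 → Fin 40 → ℕ} {L : Fin 40 → Fin 40 → Finset ℕ}
    (hs : IsStar col L) (Q : ℕ) :
    ¬ (t col (Q + 3) = t col (Q + 1) ∧ t col (Q + 2) = t col Q) :=
  fun h => hs.2.2.2 _ _ _ _ _ (aTT Q) (aTT (Q + 1))
    (aTT (Q + 2)) (aTT (Q + 3)) (nTT Q) (nTT (Q + 1)) (nTT (Q + 2))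
    ⟨Eq.trans rfl (Eq.trans (h.2.symm) (Eq.symm rfl)),
     Eq.trans rfl (Eq.trans (h.1.symm) (Eq.symm rfl))⟩

theorem k11 {col : Fin 40 → Fin 40 → ℕ} {L : Fin 40 → Fin 40 → Finset ℕ}
    (hs : IsStar col L) (Q : ℕ) :
    ¬ (t col (Q + 2) = t col Q ∧ t col (Q + 1) = r col Q) :=
  fun h => hs.2.2.2 _ _ _ _ _ (aBT Q) (aTT Q)
    (aTT (Q + 1)) (aTT (Q + 2)) (nBT _ _) (nTT Q) (nTT (Q + 1))
    ⟨Eq.trans (hs.1 _ _ (aBT Q)) (Eq.trans (h.2.symm) (Eq.symm rfl)),
     Eq.trans rfl (Eq.trans (h.1.symm) (Eq.symm rfl))⟩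

theorem k12 {col : Fin 40 → Fin 40 → ℕ} {L : Fin 40 → Fin 40 → Finset ℕ}
    (hs : IsStar col L) (Q : ℕ) :
    ¬ (t col (Q + 2) = r col (Q + 1) ∧ t col (Q + 1) = b col Q) :=
  fun h => hs.2.2.2 _ _ _ _ _ (aBB Q) (aBT (Q + 1))
    (aTT (Q + 1)) (aTT (Q + 2)) (nBT _ _) (nBT _ _) (nTT (Q + 1))
    ⟨Eq.trans rfl (Eq.trans (h.2.symm) (Eq.symm rfl)),
     Eq.trans (hs.1 _ _ (aBT (Q + 1))) (Eq.trans (h.1.symm) (Eq.symm rfl))⟩

theorem k13 {col : Fin 40 → Fin 40 → ℕ} {L : Fin 40 → Fin 40 → Finset ℕ}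
    (hs : IsStar col L) (Q : ℕ) :
    ¬ (t col (Q + 2) = b col (Q + 1) ∧ r col (Q + 2) = b col Q) :=
  fun h => hs.2.2.2 _ _ _ _ _ (aBB Q) (aBB (Q + 1))
    (aBT (Q + 2)) (aTT (Q + 2)) (nBB Q) (nBT _ _) (nBT _ _)
    ⟨Eq.trans rfl (Eq.trans (h.2.symm) (Eq.symm (hs.1 _ _ (aBT (Q + 2))))),
     Eq.trans rfl (Eq.trans (h.1.symm) (Eq.symm rfl))⟩

theorem k14 {col : Fin 40 → Fin 40 → ℕ} {L : Fin 40 → Fin 40 → Finset ℕ}
    (hs : IsStar col L) (Q : ℕ) :
    ¬ (t col (Q + 1) = b col Q ∧ r col (Q + 1) = r col Q) :=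
  fun h => hs.2.2.2 _ _ _ _ _ (aTB Q) (aBB Q)
    (aBT (Q + 1)) (aTT (Q + 1)) (nTB _ _) (nBT _ _) (nBT _ _)
    ⟨Eq.trans rfl (Eq.trans (h.2.symm) (Eq.symm (hs.1 _ _ (aBT (Q + 1))))),
     Eq.trans rfl (Eq.trans (h.1.symm) (Eq.symm rfl))⟩

theorem k15 {col : Fin 40 → Fin 40 → ℕ} {L : Fin 40 → Fin 40 → Finset ℕ}
    (hs : IsStar col L) (Q : ℕ) :
    ¬ (t col (Q + 1) = r col Q ∧ b col Q = t col Q) :=
  fun h => hs.2.2.2 _ _ _ _ _ (aBB' Q) (aBT Q)
    (aTT Q) (aTT (Q + 1)) (nBT _ _) (nBT _ _) (nTT Q)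
    ⟨Eq.trans (hs.1 _ _ (aBB' Q)) (Eq.trans (h.2) (Eq.symm rfl)),
     Eq.trans (hs.1 _ _ (aBT Q)) (Eq.trans (h.1.symm) (Eq.symm rfl))⟩

theorem k16 {col : Fin 40 → Fin 40 → ℕ} {L : Fin 40 → Fin 40 → Finset ℕ}
    (hs : IsStar col L) (Q : ℕ) :
    ¬ (b col (Q + 3) = b col (Q + 1) ∧ b col (Q + 2) = b col Q) :=
  fun h => hs.2.2.2 _ _ _ _ _ (aBB Q) (aBB (Q + 1))
    (aBB (Q + 2)) (aBB (Q + 3)) (nBB Q) (nBB (Q + 1)) (nBB (Q + 2))
    ⟨Eq.trans rfl (Eq.trans (h.2.symm) (Eq.symm rfl)),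
     Eq.trans rfl (Eq.trans (h.1.symm) (Eq.symm rfl))⟩

theorem k17 {col : Fin 40 → Fin 40 → ℕ} {L : Fin 40 → Fin 40 → Finset ℕ}
    (hs : IsStar col L) (Q : ℕ) :
    ¬ (b col (Q + 2) = b col Q ∧ b col (Q + 1) = r col Q) :=
  fun h => hs.2.2.2 _ _ _ _ _ (aTB Q) (aBB Q)
    (aBB (Q + 1)) (aBB (Q + 2)) (nTB _ _) (nBB Q) (nBB (Q + 1))
    ⟨Eq.trans rfl (Eq.trans (h.2.symm) (Eq.symm rfl)),
     Eq.trans rfl (Eq.trans (h.1.symm) (Eq.symm rfl))⟩

theorem k18 {col : Fin 40 → Fin 40 → ℕ} {L : Fin 40 → Fin 40 → Finset ℕ}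
    (hs : IsStar col L) (Q : ℕ) :
    ¬ (b col (Q + 2) = r col (Q + 1) ∧ b col (Q + 1) = t col Q) :=
  fun h => hs.2.2.2 _ _ _ _ _ (aTT Q) (aTB (Q + 1))
    (aBB (Q + 1)) (aBB (Q + 2)) (nTB _ _) (nTB _ _) (nBB (Q + 1))
    ⟨Eq.trans rfl (Eq.trans (h.2.symm) (Eq.symm rfl)),
     Eq.trans rfl (Eq.trans (h.1.symm) (Eq.symm rfl))⟩

theorem k19 {col : Fin 40 → Fin 40 → ℕ} {L : Fin 40 → Fin 40 → Finset ℕ}
    (hs : IsStar col L) (Q : ℕ) :
    ¬ (b col (Q + 2) = t col (Q + 1) ∧ r col (Q + 2) = t col Q) :=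
  fun h => hs.2.2.2 _ _ _ _ _ (aTT Q) (aTT (Q + 1))
    (aTB (Q + 2)) (aBB (Q + 2)) (nTT Q) (nTB _ _) (nTB _ _)
    ⟨Eq.trans rfl (Eq.trans (h.2.symm) (Eq.symm rfl)),
     Eq.trans rfl (Eq.trans (h.1.symm) (Eq.symm rfl))⟩

theorem k20 {col : Fin 40 → Fin 40 → ℕ} {L : Fin 40 → Fin 40 → Finset ℕ}
    (hs : IsStar col L) (Q : ℕ) :
    ¬ (b col (Q + 1) = t col Q ∧ r col (Q + 1) = r col Q) :=
  fun h => hs.2.2.2 _ _ _ _ _ (aBT Q) (aTT Q)
    (aTB (Q + 1)) (aBB (Q + 1)) (nBT _ _) (nTB _ _) (nTB _ _)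
    ⟨Eq.trans (hs.1 _ _ (aBT Q)) (Eq.trans (h.2.symm) (Eq.symm rfl)),
     Eq.trans rfl (Eq.trans (h.1.symm) (Eq.symm rfl))⟩

theorem k21 {col : Fin 40 → Fin 40 → ℕ} {L : Fin 40 → Fin 40 → Finset ℕ}
    (hs : IsStar col L) (Q : ℕ) :
    ¬ (b col (Q + 1) = r col Q ∧ b col Q = t col Q) :=
  fun h => hs.2.2.2 _ _ _ _ _ (aTT' Q) (aTB Q)
    (aBB Q) (aBB (Q + 1)) (nTB _ _) (nTB _ _) (nBB Q)
    ⟨Eq.trans (hs.1 _ _ (aTT' Q)) (Eq.trans (h.2.symm) (Eq.symm rfl)),
     Eq.trans rfl (Eq.trans (h.1.symm) (Eq.symm rfl))⟩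

theorem H0 {col : Fin 40 → Fin 40 → ℕ} {L : Fin 40 → Fin 40 → Finset ℕ}
    (hs : IsStar col L) (Q' : ℕ) (x : ℕ × ℕ × ℕ) (hx : x ∈ con0)
    (h1 : x.1 < 3 * Q' + 0) (h2 : x.2.1 < 3 * Q' + 0) (h3 : x.2.2 < 3 * Q' + 0) :
    ¬ (f col (3 * Q' + 0) = f col (3 * Q' + 0 - 1 - x.1) ∧
      f col (3 * Q' + 0 - 1 - x.2.1) = f col (3 * Q' + 0 - 1 - x.2.2)) := by
  simp only [con0, List.mem_cons, List.not_mem_nil, or_false] at hx
  rcases hx with rfl | rfl | rfl | rfl | rfl | rfl | rfl | rfl | rfl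
  · obtain ⟨Q, rfl⟩ : ∃ Q, Q' = Q + 3 := ⟨Q' - 3, by simp only at h1 h2 h3; omega⟩
    intro h
    dsimp only at h
    rw [show 3 * (Q + 3) + 0 - 1 - 4 = 3 * (Q + 1) + 1 by omega, show 3 * (Q + 3) + 0 - 1 - 1 = 3 * (Q + 2) + 1 by omega, show 3 * (Q + 3) + 0 - 1 - 7 = 3 * Q + 1 by omega] at h
    simp only [Nat.add_zero, f0, f1, f2] at h
    exact k1 hs Q h
  · obtain ⟨Q, rfl⟩ : ∃ Q, Q' = Q + 3 := ⟨Q' - 3, by simp only at h1 h2 h3; omega⟩
    intro h
    dsimp only at h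
    rw [show 3 * (Q + 3) + 0 - 1 - 3 = 3 * (Q + 1) + 2 by omega, show 3 * (Q + 3) + 0 - 1 - 0 = 3 * (Q + 2) + 2 by omega, show 3 * (Q + 3) + 0 - 1 - 6 = 3 * Q + 2 by omega] at h
    simp only [Nat.add_zero, f0, f1, f2] at h
    exact k2 hs Q h
  · obtain ⟨Q, rfl⟩ : ∃ Q, Q' = Q + 2 := ⟨Q' - 2, by simp only at h1 h2 h3; omega⟩
    intro h
    dsimp only at h
    rw [show 3 * (Q + 2) + 0 - 1 - 4 = 3 * Q + 1 by omega, show 3 * (Q + 2) + 0 - 1 - 1 = 3 * (Q + 1) + 1 by omega, show 3 * (Q + 2) + 0 - 1 - 5 = 3 * Q by omega] at h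
    simp only [Nat.add_zero, f0, f1, f2] at h
    exact k3 hs Q h
  · obtain ⟨Q, rfl⟩ : ∃ Q, Q' = Q + 2 := ⟨Q' - 2, by simp only at h1 h2 h3; omega⟩
    intro h
    dsimp only at h
    rw [show 3 * (Q + 2) + 0 - 1 - 3 = 3 * Q + 2 by omega, show 3 * (Q + 2) + 0 - 1 - 0 = 3 * (Q + 1) + 2 by omega, show 3 * (Q + 2) + 0 - 1 - 5 = 3 * Q by omega] at h
    simp only [Nat.add_zero, f0, f1, f2] at h
    exact k4 hs Q h
  · obtain ⟨Q, rfl⟩ : ∃ Q, Q' = Q + 2 := ⟨Q' - 2, by simp only at h1 h2 h3; omega⟩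
    intro h
    dsimp only at h
    rw [show 3 * (Q + 2) + 0 - 1 - 2 = 3 * (Q + 1) by omega, show 3 * (Q + 2) + 0 - 1 - 0 = 3 * (Q + 1) + 2 by omega, show 3 * (Q + 2) + 0 - 1 - 4 = 3 * Q + 1 by omega] at h
    simp only [Nat.add_zero, f0, f1, f2] at h
    exact k5 hs Q h
  · obtain ⟨Q, rfl⟩ : ∃ Q, Q' = Q + 2 := ⟨Q' - 2, by simp only at h1 h2 h3; omega⟩
    intro h
    dsimp only at h
    rw [show 3 * (Q + 2) + 0 - 1 - 4 = 3 * Q + 1 by omega, show 3 * (Q + 2) + 0 - 1 - 0 = 3 * (Q + 1) + 2 by omega, show 3 * (Q + 2) + 0 - 1 - 1 = 3 * (Q + 1) + 1 by omega] at h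
    simp only [Nat.add_zero, f0, f1, f2] at h
    exact k6 hs Q h
  · obtain ⟨Q, rfl⟩ : ∃ Q, Q' = Q + 2 := ⟨Q' - 2, by simp only at h1 h2 h3; omega⟩
    intro h
    dsimp only at h
    rw [show 3 * (Q + 2) + 0 - 1 - 2 = 3 * (Q + 1) by omega, show 3 * (Q + 2) + 0 - 1 - 1 = 3 * (Q + 1) + 1 by omega, show 3 * (Q + 2) + 0 - 1 - 3 = 3 * Q + 2 by omega] at h
    simp only [Nat.add_zero, f0, f1, f2] at h
    exact k7 hs Q h
  · obtain ⟨Q, rfl⟩ : ∃ Q, Q' = Q + 2 := ⟨Q' - 2, by simp only at h1 h2 h3; omega⟩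
    intro h
    dsimp only at h
    rw [show 3 * (Q + 2) + 0 - 1 - 3 = 3 * Q + 2 by omega, show 3 * (Q + 2) + 0 - 1 - 0 = 3 * (Q + 1) + 2 by omega, show 3 * (Q + 2) + 0 - 1 - 1 = 3 * (Q + 1) + 1 by omega] at h
    simp only [Nat.add_zero, f0, f1, f2] at h
    exact k8 hs Q h
  · obtain ⟨Q, rfl⟩ : ∃ Q, Q' = Q + 1 := ⟨Q' - 1, by simp only at h1 h2 h3; omega⟩
    intro h
    dsimp only at h
    rw [show 3 * (Q + 1) + 0 - 1 - 2 = 3 * Q by omega, show 3 * (Q + 1) + 0 - 1 - 0 = 3 * Q + 2 by omega, show 3 * (Q + 1) + 0 - 1 - 1 = 3 * Q + 1 by omega] at h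
    simp only [Nat.add_zero, f0, f1, f2] at h
    exact k9 hs Q h

theorem H1 {col : Fin 40 → Fin 40 → ℕ} {L : Fin 40 → Fin 40 → Finset ℕ}
    (hs : IsStar col L) (Q' : ℕ) (x : ℕ × ℕ × ℕ) (hx : x ∈ con1)
    (h1 : x.1 < 3 * Q' + 1) (h2 : x.2.1 < 3 * Q' + 1) (h3 : x.2.2 < 3 * Q' + 1) :
    ¬ (f col (3 * Q' + 1) = f col (3 * Q' + 1 - 1 - x.1) ∧
      f col (3 * Q' + 1 - 1 - x.2.1) = f col (3 * Q' + 1 - 1 - x.2.2)) := by
  simp only [con1, List.mem_cons, List.not_mem_nil, or_false] at hx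
  rcases hx with rfl | rfl | rfl | rfl | rfl | rfl
  · obtain ⟨Q, rfl⟩ : ∃ Q, Q' = Q + 3 := ⟨Q' - 3, by simp only at h1 h2 h3; omega⟩
    intro h
    dsimp only at h
    rw [show 3 * (Q + 3) + 1 - 1 - 5 = 3 * (Q + 1) + 1 by omega, show 3 * (Q + 3) + 1 - 1 - 2 = 3 * (Q + 2) + 1 by omega, show 3 * (Q + 3) + 1 - 1 - 8 = 3 * Q + 1 by omega] at h
    simp only [Nat.add_zero, f0, f1, f2] at h
    exact k10 hs Q h
  · obtain ⟨Q, rfl⟩ : ∃ Q, Q' = Q + 2 := ⟨Q' - 2, by simp only at h1 h2 h3; omega⟩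
    intro h
    dsimp only at h
    rw [show 3 * (Q + 2) + 1 - 1 - 5 = 3 * Q + 1 by omega, show 3 * (Q + 2) + 1 - 1 - 2 = 3 * (Q + 1) + 1 by omega, show 3 * (Q + 2) + 1 - 1 - 6 = 3 * Q by omega] at h
    simp only [Nat.add_zero, f0, f1, f2] at h
    exact k11 hs Q h
  · obtain ⟨Q, rfl⟩ : ∃ Q, Q' = Q + 2 := ⟨Q' - 2, by simp only at h1 h2 h3; omega⟩
    intro h
    dsimp only at h
    rw [show 3 * (Q + 2) + 1 - 1 - 3 = 3 * (Q + 1) by omega, show 3 * (Q + 2) + 1 - 1 - 2 = 3 * (Q + 1) + 1 by omega, show 3 * (Q + 2) + 1 - 1 - 4 = 3 * Q + 2 by omega] at h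
    simp only [Nat.add_zero, f0, f1, f2] at h
    exact k12 hs Q h
  · obtain ⟨Q, rfl⟩ : ∃ Q, Q' = Q + 2 := ⟨Q' - 2, by simp only at h1 h2 h3; omega⟩
    intro h
    dsimp only at h
    rw [show 3 * (Q + 2) + 1 - 1 - 1 = 3 * (Q + 1) + 2 by omega, show 3 * (Q + 2) + 1 - 1 - 0 = 3 * (Q + 2) by omega, show 3 * (Q + 2) + 1 - 1 - 4 = 3 * Q + 2 by omega] at h
    simp only [Nat.add_zero, f0, f1, f2] at h
    exact k13 hs Q h
  · obtain ⟨Q, rfl⟩ : ∃ Q, Q' = Q + 1 := ⟨Q' - 1, by simp only at h1 h2 h3; omega⟩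
    intro h
    dsimp only at h
    rw [show 3 * (Q + 1) + 1 - 1 - 1 = 3 * Q + 2 by omega, show 3 * (Q + 1) + 1 - 1 - 0 = 3 * (Q + 1) by omega, show 3 * (Q + 1) + 1 - 1 - 3 = 3 * Q by omega] at h
    simp only [Nat.add_zero, f0, f1, f2] at h
    exact k14 hs Q h
  · obtain ⟨Q, rfl⟩ : ∃ Q, Q' = Q + 1 := ⟨Q' - 1, by simp only at h1 h2 h3; omega⟩
    intro h
    dsimp only at h
    rw [show 3 * (Q + 1) + 1 - 1 - 3 = 3 * Q by omega, show 3 * (Q + 1) + 1 - 1 - 1 = 3 * Q + 2 by omega, show 3 * (Q + 1) + 1 - 1 - 2 = 3 * Q + 1 by omega] at h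
    simp only [Nat.add_zero, f0, f1, f2] at h
    exact k15 hs Q h

theorem H2 {col : Fin 40 → Fin 40 → ℕ} {L : Fin 40 → Fin 40 → Finset ℕ}
    (hs : IsStar col L) (Q' : ℕ) (x : ℕ × ℕ × ℕ) (hx : x ∈ con2)
    (h1 : x.1 < 3 * Q' + 2) (h2 : x.2.1 < 3 * Q' + 2) (h3 : x.2.2 < 3 * Q' + 2) :
    ¬ (f col (3 * Q' + 2) = f col (3 * Q' + 2 - 1 - x.1) ∧
      f col (3 * Q' + 2 - 1 - x.2.1) = f col (3 * Q' + 2 - 1 - x.2.2)) := by
  simp only [con2, List.mem_cons, List.not_mem_nil, or_false] at hx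
  rcases hx with rfl | rfl | rfl | rfl | rfl | rfl
  · obtain ⟨Q, rfl⟩ : ∃ Q, Q' = Q + 3 := ⟨Q' - 3, by simp only at h1 h2 h3; omega⟩
    intro h
    dsimp only at h
    rw [show 3 * (Q + 3) + 2 - 1 - 5 = 3 * (Q + 1) + 2 by omega, show 3 * (Q + 3) + 2 - 1 - 2 = 3 * (Q + 2) + 2 by omega, show 3 * (Q + 3) + 2 - 1 - 8 = 3 * Q + 2 by omega] at h
    simp only [Nat.add_zero, f0, f1, f2] at h
    exact k16 hs Q h
  · obtain ⟨Q, rfl⟩ : ∃ Q, Q' = Q + 2 := ⟨Q' - 2, by simp only at h1 h2 h3; omega⟩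
    intro h
    dsimp only at h
    rw [show 3 * (Q + 2) + 2 - 1 - 5 = 3 * Q + 2 by omega, show 3 * (Q + 2) + 2 - 1 - 2 = 3 * (Q + 1) + 2 by omega, show 3 * (Q + 2) + 2 - 1 - 7 = 3 * Q by omega] at h
    simp only [Nat.add_zero, f0, f1, f2] at h
    exact k17 hs Q h
  · obtain ⟨Q, rfl⟩ : ∃ Q, Q' = Q + 2 := ⟨Q' - 2, by simp only at h1 h2 h3; omega⟩
    intro h
    dsimp only at h
    rw [show 3 * (Q + 2) + 2 - 1 - 4 = 3 * (Q + 1) by omega, show 3 * (Q + 2) + 2 - 1 - 2 = 3 * (Q + 1) + 2 by omega, show 3 * (Q + 2) + 2 - 1 - 6 = 3 * Q + 1 by omega] at h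
    simp only [Nat.add_zero, f0, f1, f2] at h
    exact k18 hs Q h
  · obtain ⟨Q, rfl⟩ : ∃ Q, Q' = Q + 2 := ⟨Q' - 2, by simp only at h1 h2 h3; omega⟩
    intro h
    dsimp only at h
    rw [show 3 * (Q + 2) + 2 - 1 - 3 = 3 * (Q + 1) + 1 by omega, show 3 * (Q + 2) + 2 - 1 - 1 = 3 * (Q + 2) by omega, show 3 * (Q + 2) + 2 - 1 - 6 = 3 * Q + 1 by omega] at h
    simp only [Nat.add_zero, f0, f1, f2] at h
    exact k19 hs Q h
  · obtain ⟨Q, rfl⟩ : ∃ Q, Q' = Q + 1 := ⟨Q' - 1, by simp only at h1 h2 h3; omega⟩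
    intro h
    dsimp only at h
    rw [show 3 * (Q + 1) + 2 - 1 - 3 = 3 * Q + 1 by omega, show 3 * (Q + 1) + 2 - 1 - 1 = 3 * (Q + 1) by omega, show 3 * (Q + 1) + 2 - 1 - 4 = 3 * Q by omega] at h
    simp only [Nat.add_zero, f0, f1, f2] at h
    exact k20 hs Q h
  · obtain ⟨Q, rfl⟩ : ∃ Q, Q' = Q + 1 := ⟨Q' - 1, by simp only at h1 h2 h3; omega⟩
    intro h
    dsimp only at h
    rw [show 3 * (Q + 1) + 2 - 1 - 4 = 3 * Q by omega, show 3 * (Q + 1) + 2 - 1 - 2 = 3 * Q + 2 by omega, show 3 * (Q + 1) + 2 - 1 - 3 = 3 * Q + 1 by omega] at h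
    simp only [Nat.add_zero, f0, f1, f2] at h
    exact k21 hs Q h

theorem Hcon {col : Fin 40 → Fin 40 → ℕ} {L : Fin 40 → Fin 40 → Finset ℕ}
    (hs : IsStar col L) (i : ℕ) (x : ℕ × ℕ × ℕ) (hx : x ∈ con i)
    (h1 : x.1 < i) (h2 : x.2.1 < i) (h3 : x.2.2 < i) :
    ¬ (f col i = f col (i - 1 - x.1) ∧ f col (i - 1 - x.2.1) = f col (i - 1 - x.2.2)) := by
  unfold con at hx
  split_ifs at hx with h4 h5
  · obtain ⟨Q, rfl⟩ : ∃ Q, i = 3 * Q + 0 := ⟨i / 3, by omega⟩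
    exact H0 hs Q x hx h1 h2 h3
  · obtain ⟨Q, rfl⟩ : ∃ Q, i = 3 * Q + 1 := ⟨i / 3, by omega⟩
    exact H1 hs Q x hx h1 h2 h3
  · obtain ⟨Q, rfl⟩ : ∃ Q, i = 3 * Q + 2 := ⟨i / 3, by omega⟩
    exact H2 hs Q x hx h1 h2 h3

theorem a1 {col : Fin 40 → Fin 40 → ℕ} {L : Fin 40 → Fin 40 → Finset ℕ}
    (hs : IsStar col L) (Q : ℕ) : r col (Q + 1) ≠ b col Q :=
  fun h => hs.2.2.1 _ _ _ (aTB (Q + 1)) (aBB' Q) (nTB _ _)
    (h.trans (hs.1 _ _ (aBB Q)))

theorem a2 {col : Fin 40 → Fin 40 → ℕ} {L : Fin 40 → Fin 40 → Finset ℕ}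
    (hs : IsStar col L) (Q : ℕ) : r col (Q + 1) ≠ t col Q :=
  fun h => hs.2.2.1 _ _ _ (aTT Q) (aTB (Q + 1)) (nTB _ _) h.symm

theorem a3 {col : Fin 40 → Fin 40 → ℕ} {L : Fin 40 → Fin 40 → Finset ℕ}
    (hs : IsStar col L) (Q : ℕ) : t col Q ≠ r col Q :=
  fun h => hs.2.2.1 _ _ _ (aBT Q) (aTT Q) (nBT _ _) ((hs.1 _ _ (aBT Q)).trans h.symm)

theorem a4 {col : Fin 40 → Fin 40 → ℕ} {L : Fin 40 → Fin 40 → Finset ℕ}
    (hs : IsStar col L) (Q : ℕ) : t col (Q + 1) ≠ t col Q :=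
  fun h => hs.2.2.1 _ _ _ (aTT Q) (aTT (Q + 1)) (nTT Q) h.symm

theorem a5 {col : Fin 40 → Fin 40 → ℕ} {L : Fin 40 → Fin 40 → Finset ℕ}
    (hs : IsStar col L) (Q : ℕ) : b col Q ≠ r col Q :=
  fun h => hs.2.2.1 _ _ _ (aTB Q) (aBB Q) (nTB _ _) h.symm

theorem a6 {col : Fin 40 → Fin 40 → ℕ} {L : Fin 40 → Fin 40 → Finset ℕ}
    (hs : IsStar col L) (Q : ℕ) : b col (Q + 1) ≠ b col Q :=
  fun h => hs.2.2.1 _ _ _ (aBB Q) (aBB (Q + 1)) (nBB Q) h.symm

theorem Hadj {col : Fin 40 → Fin 40 → ℕ} {L : Fin 40 → Fin 40 → Finset ℕ}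
    (hs : IsStar col L) (i : ℕ) (x : ℕ) (hx : x ∈ adjo i) (h1 : x < i) :
    f col i ≠ f col (i - 1 - x) := by
  unfold adjo at hx
  split_ifs at hx with h4 h5
  · obtain ⟨Q, rfl⟩ : ∃ Q, i = 3 * (Q + 1) := ⟨i / 3 - 1, by omega⟩
    simp only [List.mem_cons, List.not_mem_nil, or_false] at hx
    rcases hx with rfl | rfl
    · rw [show 3 * (Q + 1) - 1 - 0 = 3 * Q + 2 by omega, f0, f2]
      exact a1 hs Q
    · rw [show 3 * (Q + 1) - 1 - 1 = 3 * Q + 1 by omega, f0, f1]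
      exact a2 hs Q
  · simp only [List.mem_cons, List.not_mem_nil, or_false] at hx
    rcases hx with rfl | rfl
    · obtain ⟨Q, rfl⟩ : ∃ Q, i = 3 * Q + 1 := ⟨i / 3, by omega⟩
      rw [show 3 * Q + 1 - 1 - 0 = 3 * Q by omega, f0, f1]
      exact a3 hs Q
    · obtain ⟨Q, rfl⟩ : ∃ Q, i = 3 * (Q + 1) + 1 := ⟨i / 3 - 1, by omega⟩
      rw [show 3 * (Q + 1) + 1 - 1 - 2 = 3 * Q + 1 by omega, f1, f1]
      exact a4 hs Q
  · simp only [List.mem_cons, List.not_mem_nil, or_false] at hx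
    rcases hx with rfl | rfl
    · obtain ⟨Q, rfl⟩ : ∃ Q, i = 3 * Q + 2 := ⟨i / 3, by omega⟩
      rw [show 3 * Q + 2 - 1 - 1 = 3 * Q by omega, f0, f2]
      exact a5 hs Q
    · obtain ⟨Q, rfl⟩ : ∃ Q, i = 3 * (Q + 1) + 2 := ⟨i / 3 - 1, by omega⟩
      rw [show 3 * (Q + 1) + 2 - 1 - 2 = 3 * Q + 2 by omega, f2, f2]
      exact a6 hs Q

theorem T_period (q : ℕ) : T (q + 20) = T q := by
  apply Fin.ext
  rw [T_val, T_val]
  omega

theorem B_period (q : ℕ) : B (q + 20) = B q := by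
  apply Fin.ext
  rw [B_val, B_val]
  omega

theorem f_period (col : Fin 40 → Fin 40 → ℕ) (i : ℕ) : f col (i + 60) = f col i := by
  have h1 : (i + 60) % 3 = i % 3 := by omega
  have h2 : (i + 60) / 3 = i / 3 + 20 := by omega
  unfold f r t b
  rw [h1, h2, T_period, B_period, show i / 3 + 20 + 1 = (i / 3 + 1) + 20 by omega, T_period,
    B_period]

theorem missE_T : ∀ x : Fin 40, x.val % 2 = 0 → missE x (x + 1) = miss (x.val / 2) := by
  decide +kernel

theorem missE_two : ∀ x : Fin 40, missE x (x + 2) = miss (x.val / 2) := by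
  decide +kernel

theorem f_mem {col : Fin 40 → Fin 40 → ℕ} (hs : IsStar col L) (i : ℕ) :
    f col i ≠ miss (i / 3 % 20) ∧ f col i < 5 := by
  have key : f col i ∈ (Finset.range 5).erase (miss (i / 3 % 20)) := by
    unfold f
    split_ifs with h1 h2
    · have h := hs.2.1 _ _ (aTB (i / 3))
      unfold L at h
      have e : missE (T (i / 3)) (B (i / 3)) = miss (i / 3 % 20) := by
        rw [B_eq, missE_T _ (T_even _), T_val]
        congr 1
        omega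
      rw [e] at h
      exact h
    · have h := hs.2.1 _ _ (aTT (i / 3))
      unfold L at h
      have e : missE (T (i / 3)) (T (i / 3 + 1)) = miss (i / 3 % 20) := by
        rw [T_succ, missE_two, T_val]
        congr 1
        omega
      rw [e] at h
      exact h
    · have h := hs.2.1 _ _ (aBB (i / 3))
      unfold L at h
      have e : missE (B (i / 3)) (B (i / 3 + 1)) = miss (i / 3 % 20) := by
        rw [B_succ, missE_two, B_val]
        congr 1
        omega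
      rw [e] at h
      exact h
  rw [Finset.mem_erase, Finset.mem_range] at key
  exact key

/-! The colours of the first `i` edges, each raised by one, are stored as the base 8 digits of a
number, the latest in the lowest digit. -/

/-- The digit at position `p`. -/
def dg (l p : ℕ) : ℕ := (l >>> (3 * p)) % 8

/-- The digit at position `p` differs from `c`. -/
def c2 (l c p : ℕ) : Bool := !(Nat.beq (dg l p) c)

/-- A star constraint. -/
def c3 (l c p q s : ℕ) : Bool := !(Nat.beq (dg l p) c) || !(Nat.beq (dg l q) (dg l s))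

/-- Checks for an edge of type 0. -/
def chk0 (l c : ℕ) : Bool :=
  c2 l c 0 && (c2 l c 1 &&
    (c3 l c 4 1 7 &&
    (c3 l c 3 0 6 &&
    (c3 l c 4 1 5 &&
    (c3 l c 3 0 5 &&
    (c3 l c 2 0 4 &&
    (c3 l c 4 0 1 &&
    (c3 l c 2 1 3 &&
    (c3 l c 3 0 1 &&
    (c3 l c 2 0 1))))))))))

/-- Checks for an edge of type 1. -/
def chk1 (l c : ℕ) : Bool :=
  c2 l c 0 && (c2 l c 2 &&
    (c3 l c 5 2 8 &&
    (c3 l c 5 2 6 &&
    (c3 l c 3 2 4 &&
    (c3 l c 1 0 4 &&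
    (c3 l c 1 0 3 &&
    (c3 l c 3 1 2)))))))

/-- Checks for an edge of type 2. -/
def chk2 (l c : ℕ) : Bool :=
  c2 l c 1 && (c2 l c 2 &&
    (c3 l c 5 2 8 &&
    (c3 l c 5 2 7 &&
    (c3 l c 4 2 6 &&
    (c3 l c 3 1 6 &&
    (c3 l c 3 1 4 &&
    (c3 l c 4 2 3)))))))

/-- All star and adjacency checks for the colour `c` on the edge `i`. -/
def chk (i l c : ℕ) : Bool :=
  if i % 3 = 0 then chk0 l c else if i % 3 = 1 then chk1 l c else chk2 l c

/-- The colour `c` is in the list of the edge `i`, and agrees with the colour of the edge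
`i - 60`. -/
def lst (i l c : ℕ) : Bool :=
  !(Nat.beq c (miss (i / 3 % 20) + 1)) && (Nat.blt i 60 || Nat.beq (dg l 59) c)

/-- Exhaustive search. -/
def search : ℕ → ℕ → ℕ → Bool
  | 0, _, _ => true
  | n + 1, i, l =>
    (lst i l 1 && (chk i l 1 && search n (i + 1) (8 * l + 1))) ||
    ((lst i l 2 && (chk i l 2 && search n (i + 1) (8 * l + 2))) ||
    ((lst i l 3 && (chk i l 3 && search n (i + 1) (8 * l + 3))) ||
    ((lst i l 4 && (chk i l 4 && search n (i + 1) (8 * l + 4))) ||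
    (lst i l 5 && (chk i l 5 && search n (i + 1) (8 * l + 5))))))

/-- The code of the first `i` colours. -/
def enc (g : ℕ → ℕ) : ℕ → ℕ
  | 0 => 0
  | i + 1 => 8 * enc g i + (g i + 1)

theorem dg_enc (g : ℕ → ℕ) (hg : ∀ i, g i < 5) : ∀ i j : ℕ,
    dg (enc g i) j = if j < i then g (i - 1 - j) + 1 else 0
  | 0, j => by simp [dg, enc]
  | i + 1, 0 => by
    have := hg i
    simp only [dg, enc, Nat.mul_zero, Nat.shiftRight_zero]
    simp
    omega
  | i + 1, j + 1 => by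
    have h := dg_enc g hg i j
    have hs : (8 * enc g i + (g i + 1)) >>> (3 * (j + 1)) = enc g i >>> (3 * j) := by
      rw [Nat.shiftRight_eq_div_pow, Nat.shiftRight_eq_div_pow, show 3 * (j + 1) = 3 + 3 * j by ring,
        Nat.pow_add, ← Nat.div_div_eq_div_mul]
      congr 1
      have := hg i
      omega
    have h2 : dg (enc g (i + 1)) (j + 1) = dg (enc g i) j := by
      simp only [dg, enc]
      rw [hs]
    rw [h2, h]
    by_cases hj : j < i
    · rw [if_pos hj, if_pos (by omega)]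
      congr 2
      omega
    · rw [if_neg hj, if_neg (by omega)]

theorem beq_false {a b : ℕ} (h : a ≠ b) : Nat.beq a b = false := by
  cases h' : Nat.beq a b
  · rfl
  · exact absurd (Nat.eq_of_beq_eq_true h') h

theorem c2_true {col : Fin 40 → Fin 40 → ℕ} (hs : IsStar col L) (i x : ℕ) (hx : x ∈ adjo i) :
    c2 (enc (f col) i) (f col i + 1) x = true := by
  unfold c2
  rw [dg_enc _ (fun j => (f_mem hs j).2)]
  by_cases h1 : x < i
  · rw [if_pos h1]
    have := Hadj hs i x hx h1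
    have h2 : Nat.beq (f col (i - 1 - x) + 1) (f col i + 1) = false := by
      apply beq_false
      omega
    rw [h2]
    rfl
  · rw [if_neg h1]
    rfl

theorem c3_true {col : Fin 40 → Fin 40 → ℕ} (hs : IsStar col L) (i : ℕ) (x : ℕ × ℕ × ℕ)
    (hlt : x.2.1 < x.1) (hx : x ∈ con i) :
    c3 (enc (f col) i) (f col i + 1) x.1 x.2.1 x.2.2 = true := by
  unfold c3
  rw [dg_enc _ (fun j => (f_mem hs j).2), dg_enc _ (fun j => (f_mem hs j).2),
    dg_enc _ (fun j => (f_mem hs j).2)]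
  by_cases h1 : x.1 < i
  · by_cases h3 : x.2.2 < i
    · rw [if_pos h1, if_pos (lt_trans hlt h1), if_pos h3]
      have := Hcon hs i x hx h1 (lt_trans hlt h1) h3
      by_cases hp : f col i = f col (i - 1 - x.1)
      · have h4 : Nat.beq (f col (i - 1 - x.2.1) + 1) (f col (i - 1 - x.2.2) + 1) = false := by
          apply beq_false
          intro h
          exact this ⟨hp, by omega⟩
        rw [h4]
        simp
      · have h4 : Nat.beq (f col (i - 1 - x.1) + 1) (f col i + 1) = false := by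
          apply beq_false
          omega
        rw [h4]
        rfl
    · rw [if_pos (lt_trans hlt h1), if_neg h3]
      have h4 : Nat.beq (f col (i - 1 - x.2.1) + 1) 0 = false := by
        apply beq_false
        omega
      rw [h4]
      simp
  · rw [if_neg h1]
    have h4 : Nat.beq 0 (f col i + 1) = false := by
      apply beq_false
      omega
    rw [h4]
    rfl

theorem chk0_true {col : Fin 40 → Fin 40 → ℕ} (hs : IsStar col L) (i : ℕ) (ht : i % 3 = 0) :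
    chk0 (enc (f col) i) (f col i + 1) = true := by
  simp only [chk0, Bool.and_eq_true]
  exact ⟨c2_true hs _ 0 (by unfold adjo; simp [ht]),
    c2_true hs _ 1 (by unfold adjo; simp [ht]),
    c3_true hs _ (4, 1, 7) (by decide) (by unfold con; simp [ht, con0]),
    c3_true hs _ (3, 0, 6) (by decide) (by unfold con; simp [ht, con0]),
    c3_true hs _ (4, 1, 5) (by decide) (by unfold con; simp [ht, con0]),
    c3_true hs _ (3, 0, 5) (by decide) (by unfold con; simp [ht, con0]),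
    c3_true hs _ (2, 0, 4) (by decide) (by unfold con; simp [ht, con0]),
    c3_true hs _ (4, 0, 1) (by decide) (by unfold con; simp [ht, con0]),
    c3_true hs _ (2, 1, 3) (by decide) (by unfold con; simp [ht, con0]),
    c3_true hs _ (3, 0, 1) (by decide) (by unfold con; simp [ht, con0]),
    c3_true hs _ (2, 0, 1) (by decide) (by unfold con; simp [ht, con0])⟩

theorem chk1_true {col : Fin 40 → Fin 40 → ℕ} (hs : IsStar col L) (i : ℕ) (ht : i % 3 = 1) :
    chk1 (enc (f col) i) (f col i + 1) = true := by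
  simp only [chk1, Bool.and_eq_true]
  exact ⟨c2_true hs _ 0 (by unfold adjo; simp [ht]),
    c2_true hs _ 2 (by unfold adjo; simp [ht]),
    c3_true hs _ (5, 2, 8) (by decide) (by unfold con; simp [ht, con1]),
    c3_true hs _ (5, 2, 6) (by decide) (by unfold con; simp [ht, con1]),
    c3_true hs _ (3, 2, 4) (by decide) (by unfold con; simp [ht, con1]),
    c3_true hs _ (1, 0, 4) (by decide) (by unfold con; simp [ht, con1]),
    c3_true hs _ (1, 0, 3) (by decide) (by unfold con; simp [ht, con1]),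
    c3_true hs _ (3, 1, 2) (by decide) (by unfold con; simp [ht, con1])⟩

theorem chk2_true {col : Fin 40 → Fin 40 → ℕ} (hs : IsStar col L) (i : ℕ) (ht : i % 3 = 2) :
    chk2 (enc (f col) i) (f col i + 1) = true := by
  simp only [chk2, Bool.and_eq_true]
  exact ⟨c2_true hs _ 1 (by unfold adjo; simp [ht]),
    c2_true hs _ 2 (by unfold adjo; simp [ht]),
    c3_true hs _ (5, 2, 8) (by decide) (by unfold con; simp [ht, con2]),
    c3_true hs _ (5, 2, 7) (by decide) (by unfold con; simp [ht, con2]),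
    c3_true hs _ (4, 2, 6) (by decide) (by unfold con; simp [ht, con2]),
    c3_true hs _ (3, 1, 6) (by decide) (by unfold con; simp [ht, con2]),
    c3_true hs _ (3, 1, 4) (by decide) (by unfold con; simp [ht, con2]),
    c3_true hs _ (4, 2, 3) (by decide) (by unfold con; simp [ht, con2])⟩

theorem chk_true {col : Fin 40 → Fin 40 → ℕ} (hs : IsStar col L) (i : ℕ) :
    chk i (enc (f col) i) (f col i + 1) = true := by
  unfold chk
  split_ifs with h1 h2
  · exact chk0_true hs i h1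
  · exact chk1_true hs i h2
  · exact chk2_true hs i (by omega)

theorem lst_true {col : Fin 40 → Fin 40 → ℕ} (hs : IsStar col L) (i : ℕ) :
    lst i (enc (f col) i) (f col i + 1) = true := by
  unfold lst
  have h1 := (f_mem hs i).1
  have h2 : Nat.beq (f col i + 1) (miss (i / 3 % 20) + 1) = false := by
    apply beq_false
    omega
  rw [h2, dg_enc _ (fun j => (f_mem hs j).2)]
  by_cases h : i < 60
  · have h3 : Nat.blt i 60 = true := by
      rw [Nat.blt_eq]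
      exact h
    rw [h3]
    rfl
  · obtain ⟨j, rfl⟩ : ∃ j, i = j + 60 := ⟨i - 60, by omega⟩
    rw [if_pos (by omega), show j + 60 - 1 - 59 = j by omega, f_period]
    simp

theorem search_true {col : Fin 40 → Fin 40 → ℕ} (hs : IsStar col L) :
    ∀ n i : ℕ, search n i (enc (f col) i) = true
  | 0, i => rfl
  | n + 1, i => by
    have h1 := lst_true hs i
    have h2 := chk_true hs i
    have h3 := search_true hs n (i + 1)
    have h4 : f col i < 5 := (f_mem hs i).2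
    simp only [enc] at h3
    have h5 : f col i = 0 ∨ f col i = 1 ∨ f col i = 2 ∨ f col i = 3 ∨ f col i = 4 := by omega
    unfold search
    rcases h5 with h | h | h | h | h <;> rw [h] at h1 h2 h3 <;> simp only [Nat.reduceAdd] at h1 h2 h3 <;>
      simp only [h1, h2, h3, Bool.and_true, Bool.true_or, Bool.or_true]

theorem s011 : search 66 3 82 = false := by decide +kernel

theorem s012 : search 66 3 83 = false := by decide +kernel

theorem s013 : search 66 3 84 = false := by decide +kernel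

theorem s021 : search 66 3 90 = false := by decide +kernel

theorem s022 : search 66 3 91 = false := by decide +kernel

theorem s023 : search 66 3 92 = false := by decide +kernel

theorem s031 : search 66 3 98 = false := by decide +kernel

theorem s032 : search 66 3 99 = false := by decide +kernel

theorem s033 : search 66 3 100 = false := by decide +kernel

theorem s100 : search 66 3 137 = false := by decide +kernel

theorem s102 : search 66 3 139 = false := by decide +kernel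

theorem s103 : search 66 3 140 = false := by decide +kernel

theorem s120 : search 66 3 153 = false := by decide +kernel

theorem s122 : search 66 3 155 = false := by decide +kernel

theorem s123 : search 66 3 156 = false := by decide +kernel

theorem s130 : search 66 3 161 = false := by decide +kernel

theorem s132 : search 66 3 163 = false := by decide +kernel

theorem s133 : search 66 3 164 = false := by decide +kernel

theorem s200 : search 66 3 201 = false := by decide +kernel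

theorem s201 : search 66 3 202 = false := by decide +kernel

theorem s203 : search 66 3 204 = false := by decide +kernel

theorem s210 : search 66 3 209 = false := by decide +kernel

theorem s211 : search 66 3 210 = false := by decide +kernel

theorem s213 : search 66 3 212 = false := by decide +kernel

theorem s230 : search 66 3 225 = false := by decide +kernel

theorem s231 : search 66 3 226 = false := by decide +kernel

theorem s233 : search 66 3 228 = false := by decide +kernel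

theorem s300 : search 66 3 265 = false := by decide +kernel

theorem s301 : search 66 3 266 = false := by decide +kernel

theorem s302 : search 66 3 267 = false := by decide +kernel

theorem s310 : search 66 3 273 = false := by decide +kernel

theorem s311 : search 66 3 274 = false := by decide +kernel

theorem s312 : search 66 3 275 = false := by decide +kernel

theorem s320 : search 66 3 281 = false := by decide +kernel

theorem s321 : search 66 3 282 = false := by decide +kernel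

theorem s322 : search 66 3 283 = false := by decide +kernel

theorem search_false (x y z : ℕ) (hx : x < 4) (hy : y < 4) (hz : z < 4)
    (h1 : y ≠ x) (h2 : z ≠ x) : search 66 3 (8 * (8 * (8 * 0 + (x + 1)) + (y + 1)) + (z + 1)) = false := by
  interval_cases x <;> interval_cases y <;> interval_cases z <;>
    first | exact absurd rfl h1 | exact absurd rfl h2 | skip
  · exact s011
  · exact s012
  · exact s013
  · exact s021
  · exact s022
  · exact s023
  · exact s031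
  · exact s032
  · exact s033
  · exact s100
  · exact s102
  · exact s103
  · exact s120
  · exact s122
  · exact s123
  · exact s130
  · exact s132
  · exact s133
  · exact s200
  · exact s201
  · exact s203
  · exact s210
  · exact s211
  · exact s213
  · exact s230
  · exact s231
  · exact s233
  · exact s300
  · exact s301
  · exact s302
  · exact s310
  · exact s311
  · exact s312
  · exact s320
  · exact s321
  · exact s322

theorem no_star (col : Fin 40 → Fin 40 → ℕ) : ¬ IsStar col L := by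
  intro hs
  have h := search_true hs 66 3
  have m0 : f col 0 ≠ 4 ∧ f col 0 < 5 := f_mem hs 0
  have m1 : f col 1 ≠ 4 ∧ f col 1 < 5 := f_mem hs 1
  have m2 : f col 2 ≠ 4 ∧ f col 2 < 5 := f_mem hs 2
  rw [show enc (f col) 3 = 8 * (8 * (8 * 0 + (f col 0 + 1)) + (f col 1 + 1)) + (f col 2 + 1) from rfl,
    search_false (f col 0) (f col 1) (f col 2) (by omega) (by omega) (by omega)
      (Hadj hs 1 0 (by decide) (by decide)) (Hadj hs 2 1 (by decide) (by decide))] at h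
  exact Bool.noConfusion h

theorem col4_proper_adj : ∀ a b c : Fin 40, G.Adj a b → G.Adj b c → a ≠ c → col4 a b ≠ col4 b c := by
  intro a b c hab hbc hac
  obtain ⟨i, rfl⟩ := exists_nbr a b hab
  obtain ⟨j, rfl⟩ := exists_nbr _ c hbc
  exact col4_proper a i j hac

theorem col4_star_adj : ∀ a b c d e : Fin 40, G.Adj a b → G.Adj b c → G.Adj c d → G.Adj d e →
    a ≠ c → b ≠ d → c ≠ e → ¬ (col4 a b = col4 c d ∧ col4 b c = col4 d e) := by
  intro a b c d e hab hbc hcd hde hac hbd hce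
  obtain ⟨i, rfl⟩ := exists_nbr a b hab
  obtain ⟨j, rfl⟩ := exists_nbr _ c hbc
  obtain ⟨k, rfl⟩ := exists_nbr _ d hcd
  obtain ⟨l, rfl⟩ := exists_nbr _ e hde
  exact col4_star a i j hac k hbd l hce

end Pool.Agent.Work.MP_b05911_co.Prism
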